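import Pool.Agent.W220.LinMain

/-!
# The set of lineons has an explicit description

The definitions are in `Pool/Agent/W220/LinDefs.lean`: `LModel V` are the models of `T_Lin` on the
vertex set `V`, `IsoClass` is the set `𝓜` of isomorphism classes of finite non-empty models,
`density M N` is `p(M,N)`, `point A` is the point `p(-, M_A)` of `[0,1]^𝓜`, `IsLineon` says that a
point of `[0,1]^𝓜` is an accumulation point of the set of all `point A`, `codedClass` is the
explicit enumeration of `𝓜` by pairs of natural numbers (size and binary digits of the edge sets),
`PolyCode` are codes (lists of terms) of polynomials with rational coefficients in finitely many of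
the coordinates, `toPoly` is the decoding and `value` the evaluation.

Method. A random linear map `F_2^N → F_2^m` is injective on, and uniform on the images of, linearly
independent families, so by the second moment method the sampling densities of a subset `A` of
`F_2^m` are those of some subset of `F_2^N` up to an error which is explicit in `N` and does not
depend on `m` and `A`. Hence a point `x` is a lineon iff for all `k` and `j` some subset `B` of
`F_2^(2k+4+j)` has `∑_{i<k} (x_i - p_i(B))^2 ≤ k / 2^j`, and this is expressed by the polynomial
inequalities `∑_B (k - ∑_{i<k} (x_i - p_i(B))^2)^M ≥ (k - k / 2^j)^M`, `M = 0, 1, 2, …`.
-/

set_option autoImplicit false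

namespace Pool.Agent.Results.MP_236854_co.ExplicitDescription

open Pool.Agent.W220.Lin

/-- **The set of lineons has an explicit description.** There is a primitive recursive (hence
computable) enumeration `F 0, F 1, …` of codes of polynomials with rational coefficients in
finitely many of the coordinates of `[0,1]^𝓜` such that the lineons are exactly the points at
which all these polynomials are nonnegative. -/
theorem result : Function.Surjective codedClass ∧
    ∃ F : ℕ → PolyCode, Primrec F ∧
      {x : IsoClass → unitInterval | IsLineon x} =
        {x : IsoClass → unitInterval | ∀ n : ℕ, 0 ≤ value (toPoly (F n)) x} :=
  ⟨codedClass_surj, enum, explicit_description.1, Set.ext explicit_description.2⟩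

end Pool.Agent.Results.MP_236854_co.ExplicitDescription
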